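import Pool.Agent.Helper71.BM.Basic

set_option autoImplicit false

/-! Module MID: an optimal packing, no cheap double linkage in the middle. -/

namespace Pool.Agent.Helper71.BM

open Finset ErdPos

section midaux

variable {V : Type} {G : SimpleGraph V}

lemma mid_split1 {C : List V} {i : ℕ} {u : V} (h : C[i]? = some u) :
    ∃ C1 C2, C = C1 ++ u :: C2 ∧ C1.length = i := by
  obtain ⟨h1, h2⟩ := List.getElem?_eq_some_iff.1 h
  refine ⟨C.take i, C.drop (i + 1), ?_, ?_⟩
  · rw [← h2]
    rw [List.getElem_cons_drop, List.take_append_drop]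
  · rw [List.length_take]
    omega

lemma mid_split2 {C : List V} {i j : ℕ} {u u' : V} (hij : i < j) (h : C[i]? = some u)
    (h' : C[j]? = some u') :
    ∃ C1 M C2, C = C1 ++ u :: (M ++ u' :: C2) ∧ C1.length = i ∧ i + M.length + 1 = j := by
  obtain ⟨C1, C2, rfl, h1⟩ := mid_split1 h
  have h2 : C1 ++ u :: C2 = (C1 ++ [u]) ++ C2 := by simp
  rw [h2, List.getElem?_append_right (by simp; omega)] at h'
  obtain ⟨M, C3, rfl, h3⟩ := mid_split1 h'
  refine ⟨C1, M, C3, rfl, h1, ?_⟩
  simp at h3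
  omega

lemma mid_decomp {l : List V} {L : ℕ} (h1 : 1 ≤ L) (h2 : 2 * L ≤ l.length) :
    ∃ A a b B, l = A ++ a :: (core L l ++ b :: B) ∧ A.length + 1 = L ∧ B.length + 1 = L ∧
      (core L l).length + 2 * L = l.length := by
  have e1 : l = l.take L ++ (core L l ++ l.drop (l.length - L)) := by
    have e2 : l.drop (l.length - L) = (l.drop L).drop (l.length - 2 * L) := by
      rw [List.drop_drop]
      congr 1
      omega
    rw [e2]
    unfold core
    rw [List.take_append_drop, List.take_append_drop]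
  have l1 : (l.take L).length = L := by
    rw [List.length_take]
    omega
  have l2 : (l.drop (l.length - L)).length = L := by
    rw [List.length_drop]
    omega
  have l3 : (core L l).length + 2 * L = l.length := by
    unfold core
    rw [List.length_take, List.length_drop]
    omega
  obtain ⟨A, a, hA⟩ : ∃ A a, l.take L = A ++ [a] := by
    rcases List.eq_nil_or_concat (l.take L) with h | ⟨A, a, h⟩
    · rw [h] at l1
      simp at l1
      omega
    · exact ⟨A, a, by rw [h]; simp⟩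
  obtain ⟨b, B, hB⟩ : ∃ b B, l.drop (l.length - L) = b :: B := by
    cases h : l.drop (l.length - L) with
    | nil =>
      rw [h] at l2
      simp at l2
      omega
    | cons b B => exact ⟨b, B, rfl⟩
  refine ⟨A, a, b, B, ?_, ?_, ?_, l3⟩
  · rw [hA, hB] at e1
    simpa using e1
  · rw [hA] at l1
    simpa using l1
  · rw [hB] at l2
    simpa using l2

/-- the two legs and the core of an ear -/
lemma mid_ear {q : ℕ} {W : Finset V} {t : ℕ → V} [DecidableEq V] {α β : ℕ} {l A C B : List V}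
    {a b : V} (h : Ear G q W t α β l) (e : l = A ++ a :: (C ++ b :: B)) :
    (PL G a (t α) (a :: A.reverse) ∧ t α ∈ Tm q t ∧
      ∀ v ∈ a :: A.reverse, v ∈ Tm q t → v = t α) ∧
    (PL G b (t β) (b :: B) ∧ t β ∈ Tm q t ∧ ∀ v ∈ b :: B, v ∈ Tm q t → v = t β) ∧
    ∀ v ∈ C, v ∉ Tm q t := by
  subst e
  obtain ⟨hα, hβ, hne, hPL, -, hT⟩ := h
  have h1 := hPL.left
  have h2 : A ++ a :: (C ++ b :: B) = (A ++ a :: C) ++ b :: B := by simp
  have h3 := hPL
  rw [h2] at h3
  have h4 := h3.right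
  have h5 := h1.reverse
  have hnd := hPL.2.2.1
  rw [h2, List.nodup_append] at hnd
  have m1 : t α ∈ A ++ [a] := h1.head_mem
  have m2 : t β ∈ b :: B := h4.last_mem
  have hmem : ∀ v ∈ A ++ a :: (C ++ b :: B), v ∈ Tm q t → v = t α ∨ v = t β := by
    intro v hv hvT
    obtain ⟨i, hi, hvi⟩ := mem_Tm.1 hvT
    rcases hT v hv i hi hvi.symm with h | h
    · left
      rw [← hvi, h]
    · right
      rw [← hvi, h]
  refine ⟨⟨by simpa using h5, mem_Tm.2 ⟨α, hα, rfl⟩, ?_⟩,
    ⟨h4, mem_Tm.2 ⟨β, hβ, rfl⟩, ?_⟩, ?_⟩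
  · intro v hv hvT
    have hv' : v ∈ A ++ [a] := by
      simp at hv ⊢
      tauto
    rcases hmem v (by simp at hv' ⊢; tauto) hvT with h | h
    · exact h
    · exfalso
      refine hnd.2.2 v ?_ (t β) m2 h
      simp at hv' ⊢
      tauto
  · intro v hv hvT
    rcases hmem v (by simp at hv ⊢; tauto) hvT with h | h
    · exfalso
      refine hnd.2.2 (t α) ?_ v hv h.symm
      simp at m1 ⊢
      tauto
    · exact h
  · intro v hv hvT
    have hnd2 := hPL.2.2.1
    rw [List.nodup_append] at hnd2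
    rcases hmem v (by simp [hv]) hvT with h | h
    · subst h
      simp at m1
      rcases m1 with m1 | m1
      · exact hnd2.2.2 _ m1 (t α) (by simp [hv]) rfl
      · have := hnd2.2.1
        rw [← m1] at this
        simp [hv] at this
    · subst h
      refine hnd.2.2 (t β) ?_ (t β) m2 rfl
      simp [hv]

lemma mid_subperm_nodup {l l' : List V} (h : l.Subperm l') (h' : l'.Nodup) : l.Nodup := by
  obtain ⟨m, hm, hs⟩ := h
  exact hm.nodup_iff.1 (hs.nodup h')

lemma mid_flatMap_subperm {P : List (List V)} {f : List V → List V}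
    (h : ∀ l ∈ P, (f l).Subperm l) : (P.flatMap f).Subperm P.flatten := by
  induction P with
  | nil => simp
  | cons a P ih =>
    rw [List.flatMap_cons, List.flatten_cons]
    exact (h a (by simp)).append (ih (fun l hl => h l (by simp [hl])))

lemma mid_tails (Q : List (List V)) : (Q.map List.tail).flatten.Sublist Q.flatten := by
  induction Q with
  | nil => simp
  | cons a Q ih =>
    rw [List.map_cons, List.flatten_cons, List.flatten_cons]
    exact (List.tail_sublist a).append ih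

lemma mid_core_sum {P : List (List V)} {L : ℕ} (h : ∀ l ∈ P, (core L l).length + 2 * L = l.length) :
    (P.map (core L)).flatten.length + 2 * L * P.length = P.flatten.length := by
  induction P with
  | nil => simp
  | cons a P ih =>
    have h1 := ih (fun l hl => h l (by simp [hl]))
    have h2 := h a (by simp)
    simp only [List.map_cons, List.flatten_cons, List.length_append, List.length_cons]
    have h3 : 2 * L * (P.length + 1) = 2 * L * P.length + 2 * L := by ring
    omega

lemma mid_heads_nodup {R : List (List V)} (hR : R.flatten.Nodup) (hne : ∀ r ∈ R, r ≠ []) :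
    (R.map List.head?).Nodup := by
  have h1 := nodup_of_flatten hR hne
  refine List.Nodup.map_on ?_ h1
  intro r hr r' hr' h
  cases hc : r with
  | nil => exact absurd hc (hne r hr)
  | cons v r1 =>
    rw [← hc]
    have h2 : v ∈ r := by rw [hc]; simp
    have h3 : v ∈ r' := by
      rw [hc] at h
      simp only [List.head?_cons] at h
      exact List.mem_of_mem_head? (by rw [← h]; simp)
    exact eq_of_mem_flatten hR hr hr' h2 h3

lemma mid_choose {D : List (Rc V)} {p : ℕ} {AA R : List (List V)} (hR : R.flatten.Nodup)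
    (hne : ∀ r ∈ R, r ≠ []) (hlen : R.length = 4 * p + 2) (hAA : AA.length = 2 * p)
    (hD : D.length = 2 * p + 1)
    (hsub : ∀ r ∈ R, ∃ l ∈ AA ++ (D.flatMap (fun r => [r.p, r.p'])).map List.tail,
      r.head? = l.head?) :
    ∃ r ∈ D, ((∃ ρ ∈ R, ρ.head? = r.p.tail.head?) ∧ ∀ l ∈ AA, l.head? ≠ r.p.tail.head?) ∧
      (∃ ρ ∈ R, ρ.head? = r.p'.tail.head?) ∧ ∀ l ∈ AA, l.head? ≠ r.p'.tail.head? := by
  classical
  obtain ⟨S, hS⟩ : ∃ S : Finset (Option V), S = (R.map List.head?).toFinset \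
    (AA.map List.head?).toFinset := ⟨_, rfl⟩
  have hmem : ∀ o, o ∈ S ↔ (∃ ρ ∈ R, ρ.head? = o) ∧ ∀ l ∈ AA, l.head? ≠ o := by
    intro o
    rw [hS]
    simp
  have hcard : 2 * p + 2 ≤ S.card := by
    have h1 : (R.map List.head?).toFinset.card = 4 * p + 2 := by
      rw [List.toFinset_card_of_nodup (mid_heads_nodup hR hne), List.length_map, hlen]
    have h2 : (AA.map List.head?).toFinset.card ≤ 2 * p := by
      have := List.toFinset_card_le (AA.map List.head?)
      rw [List.length_map, hAA] at this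
      exact this
    have h3 := Finset.le_card_sdiff (AA.map List.head?).toFinset (R.map List.head?).toFinset
    rw [← hS] at h3
    omega
  by_contra hcon
  push Not at hcon
  have hno : ∀ r ∈ D, r.p.tail.head? ∈ S → r.p'.tail.head? ∉ S := by
    intro r hr h1 h2
    rw [hmem] at h1 h2
    obtain ⟨l, hl, h3⟩ := hcon r hr h1 h2.1
    exact h2.2 l hl h3
  have hS2 : S ⊆ (D.map (fun r => if r.p.tail.head? ∈ S then r.p.tail.head? else
      r.p'.tail.head?)).toFinset := by
    intro o ho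
    have ho2 := (hmem o).1 ho
    obtain ⟨⟨ρ, hρ, rfl⟩, h2⟩ := ho2
    obtain ⟨l, hl, h3⟩ := hsub ρ hρ
    rw [List.mem_append] at hl
    rcases hl with hl | hl
    · exact absurd h3.symm (h2 l hl)
    · rw [List.mem_map] at hl
      obtain ⟨l', hl', rfl⟩ := hl
      rw [List.mem_flatMap] at hl'
      obtain ⟨r, hr, hl'⟩ := hl'
      rw [List.mem_toFinset, List.mem_map]
      refine ⟨r, hr, ?_⟩
      simp only [List.mem_cons, List.not_mem_nil, or_false] at hl'
      rcases hl' with rfl | rfl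
      · rw [h3] at ho ⊢
        rw [if_pos ho]
      · rw [h3] at ho ⊢
        rw [if_neg (fun h => hno r hr h ho)]
  have h4 := Finset.card_le_card hS2
  have h5 := List.toFinset_card_le (D.map (fun r => if r.p.tail.head? ∈ S then r.p.tail.head? else
      r.p'.tail.head?))
  rw [List.length_map, hD] at h5
  omega

end midaux

section midtails

variable {V : Type} {G : SimpleGraph V}

lemma mid_legs_sub {A C B l : List V} {a b : V} (e : l = A ++ a :: (C ++ b :: B)) :
    (A ++ [a] ++ (b :: B)).Sublist l := by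
  subst e
  have h7 : A ++ a :: (C ++ b :: B) = (A ++ [a]) ++ (C ++ b :: B) := by simp
  rw [h7]
  exact (List.Sublist.refl _).append (List.sublist_append_right _ _)

lemma mid_core_sub {A C B l : List V} {a b : V} (e : l = A ++ a :: (C ++ b :: B)) :
    C.Sublist l := by
  subst e
  have h7 : A ++ a :: (C ++ b :: B) = (A ++ [a]) ++ (C ++ b :: B) := by simp
  rw [h7]
  exact (List.sublist_append_left _ _).trans (List.sublist_append_right _ _)

lemma mid_heads_sub {A C B l : List V} {a b : V} (e : l = A ++ a :: (C ++ b :: B)) :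
    [a, b].Sublist l := by
  subst e
  refine List.Sublist.trans ?_ (List.sublist_append_right _ _)
  refine List.Sublist.cons_cons _ ?_
  refine List.Sublist.trans ?_ (List.sublist_append_right _ _)
  exact List.Sublist.cons_cons _ (List.nil_sublist _)

lemma mid_core_get {A C B l : List V} {a b : V} {L i : ℕ} (e : l = A ++ a :: (C ++ b :: B))
    (h1 : A.length + 1 = L) (h2 : L ≤ i) (h3 : i < L + C.length) : l[i]? = C[i - L]? := by
  subst e
  have h7 : A ++ a :: (C ++ b :: B) = (A ++ [a]) ++ (C ++ b :: B) := by simp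
  have h8 : (A ++ [a]).length = L := by simp [h1]
  rw [h7, List.getElem?_append_right (by omega), h8, List.getElem?_append_left (by omega)]

lemma mid_disj {A C B l : List V} {a b v : V} (e : l = A ++ a :: (C ++ b :: B)) (hl : l.Nodup)
    (hv : v ∈ C) (h : v ∈ A ++ [a] ++ (b :: B)) : False := by
  subst e
  have h7 : A ++ a :: (C ++ b :: B) = (A ++ [a]) ++ (C ++ b :: B) := by simp
  rw [h7, List.nodup_append, List.nodup_append (l₁ := C)] at hl
  rw [List.mem_append] at h
  rcases h with h | h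
  · exact hl.2.2 v h v (by simp [hv]) rfl
  · exact hl.2.1.2.2 v hv v h rfl

lemma mid_ch0 {A C B l : List V} {a b : V} (e : l = A ++ a :: (C ++ b :: B))
    (h : l.IsChain G.Adj) : (a :: C ++ [b]).IsChain G.Adj := by
  subst e
  have h1 : A ++ a :: (C ++ b :: B) = A ++ ((a :: C ++ [b]) ++ B) := by simp
  rw [h1] at h
  exact h.right_of_append.left_of_append

lemma mid_ch1 {A C B l C1 M C2 : List V} {a b u u' x : V} (e : l = A ++ a :: (C ++ b :: B))
    (e' : C = C1 ++ u :: (M ++ u' :: C2)) (h : l.IsChain G.Adj) (hux : G.Adj u x) :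
    (a :: (C1 ++ [u]) ++ [x]).IsChain G.Adj := by
  subst e' e
  have h1 : (a :: (C1 ++ [u])).IsChain G.Adj := by
    have h1 : A ++ a :: ((C1 ++ u :: (M ++ u' :: C2)) ++ b :: B) =
        A ++ ((a :: (C1 ++ [u])) ++ (M ++ u' :: C2 ++ b :: B)) := by simp
    rw [h1] at h
    exact h.right_of_append.left_of_append
  rw [List.isChain_append]
  refine ⟨h1, by simp, ?_⟩
  intro y hy z hz
  have h2 : a :: (C1 ++ [u]) = (a :: C1) ++ [u] := by simp
  rw [h2, List.getLast?_append] at hy
  simp at hy hz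
  rw [← hy, ← hz]
  exact hux

lemma mid_ch2 {A C B l C1 M C2 : List V} {a b u u' x : V} (e : l = A ++ a :: (C ++ b :: B))
    (e' : C = C1 ++ u :: (M ++ u' :: C2)) (h : l.IsChain G.Adj) (hux : G.Adj u' x) :
    (x :: (u' :: C2) ++ [b]).IsChain G.Adj := by
  subst e' e
  have h1 : (u' :: C2 ++ [b]).IsChain G.Adj := by
    have h1 : A ++ a :: ((C1 ++ u :: (M ++ u' :: C2)) ++ b :: B) =
        (A ++ a :: C1 ++ u :: M) ++ ((u' :: C2 ++ [b]) ++ B) := by simp
    rw [h1] at h
    exact h.right_of_append.left_of_append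
  rw [List.cons_append, List.cons_append, List.isChain_cons_cons]
  exact ⟨hux.symm, h1⟩

lemma mid_const_length {L : List (List V)} {c : ℕ} (h : ∀ l ∈ L, l.length = c) :
    L.flatten.length = c * L.length := by
  induction L with
  | nil => simp
  | cons a L ih =>
    rw [List.flatten_cons, List.length_append, ih (fun l hl => h l (by simp [hl])), h a (by simp),
      List.length_cons]
    ring

lemma mid_tail {K A T : Finset V} {Q : List (List V)} (hS : Sys G K A T Q)
    (hd : ∀ v ∈ A, v ∉ T) :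
    ∀ l ∈ Q, ∃ u x l', l = u :: x :: l' ∧ u ∈ A ∧ G.Adj u x ∧
      (∀ v ∈ l.tail, v ∉ A) ∧ ∃ b ∈ T, PL G x b (x :: l') ∧ ∀ v ∈ x :: l', v ∈ T → v = b := by
  intro l hl
  obtain ⟨-, a, ha, b, hb, hPL, h1, h2⟩ := hS.2 l hl
  have hab : a ≠ b := by
    rintro rfl
    exact hd a ha hb
  obtain ⟨l1, rfl⟩ := hPL.eq_both hab
  have hnd := hPL.2.2.1
  cases l1 with
  | nil =>
    refine ⟨a, b, [], by simp, ha, ?_, ?_, b, hb, PL.single b, by simp⟩
    · have := hPL.2.2.2
      simpa using this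
    · intro v hv hvA
      have h3 := h1 v (List.mem_of_mem_tail hv) hvA
      subst h3
      simp at hv
      exact hab hv
  | cons x l1 =>
    have hnd2 : a ∉ x :: l1 ++ [b] := by
      simpa using (List.nodup_cons.1 hnd).1
    refine ⟨a, x, l1 ++ [b], by simp, ha, ?_, ?_, b, hb, ?_, ?_⟩
    · have h3 := hPL.2.2.2
      simp only [List.cons_append, List.isChain_cons_cons] at h3
      exact h3.1
    · intro v hv hvA
      have h3 := h1 v (List.mem_of_mem_tail hv) hvA
      subst h3
      exact hnd2 (by simpa using hv)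
    · have h3 : a :: (x :: l1) ++ [b] = [a] ++ x :: (l1 ++ [b]) := by simp
      rw [h3] at hPL
      exact hPL.right
    · intro v hv hvT
      refine h2 v ?_ hvT
      simp at hv ⊢
      tauto

end midtails

theorem st_MID (h1 : ST_OPP) (h2 : ST_EX) (h3 : ST_SURG) : ST_MID := by
  intro V _ _ G k e K q N w W t hC s lam Lam E1 E2 Y m hPar P hO D hDl hD hS hTot
  classical
  obtain ⟨hp1, hps, htot, -, hlen⟩ := h1 V G k e K q N w W t hC s lam Lam E1 E2 Y m hPar P hO
  obtain ⟨p, hp⟩ : ∃ p, p = P.length := ⟨_, rfl⟩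
  rw [← hp] at hp1 hps hDl hTot
  obtain ⟨⟨hPkg, hE, hk⟩, hopt⟩ := hO
  have hLam1 : 1 ≤ Lam := by
    have := hPar.hL
    omega
  have hsl : p * lam ≤ s * lam := Nat.mul_le_mul_right _ hps
  have hsL : p * Lam ≤ s * Lam := Nat.mul_le_mul_right _ hps
  have hpLam1 : Lam ≤ p * Lam := Nat.le_mul_of_pos_left _ hp1
  have hpar1 := hPar.he
  have hpar2 := hPar.hY
  have hpar3 := hPar.hE2
  have hpar4 : (2 * s + 1) * Lam = 2 * (s * Lam) + Lam := by ring
  have hpar5 : (2 * s + 1) * lam = 2 * (s * lam) + lam := by ring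
  have hpar6 : (2 * p + 1) * lam = 2 * (p * lam) + lam := by ring
  rw [hpar4] at hpar1
  rw [hpar5] at hpar2
  rw [hpar6] at hTot
  have hdec : ∀ l ∈ P, ∃ A a b B, l = A ++ a :: (core Lam l ++ b :: B) ∧ A.length + 1 = Lam ∧
      B.length + 1 = Lam ∧ (core Lam l).length + 2 * Lam = l.length := by
    intro l hl
    have := hlen l hl
    exact mid_decomp hLam1 (by omega)
  have : Nonempty V := by
    cases hc : P with
    | nil =>
      rw [hc] at hp
      simp at hp
      omega
    | cons l P' =>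
      obtain ⟨A, a, -⟩ := hdec l (by rw [hc]; simp)
      exact ⟨a⟩
  choose! fA fa fb fB hdec using hdec
  have hear : ∀ l ∈ P, ∃ α β,
      (PL G (fa l) (t α) (fa l :: (fA l).reverse) ∧ t α ∈ Tm q t ∧
        ∀ v ∈ fa l :: (fA l).reverse, v ∈ Tm q t → v = t α) ∧
      (PL G (fb l) (t β) (fb l :: fB l) ∧ t β ∈ Tm q t ∧
        ∀ v ∈ fb l :: fB l, v ∈ Tm q t → v = t β) ∧
      ∀ v ∈ core Lam l, v ∉ Tm q t := by
    intro l hl
    obtain ⟨α, β, h⟩ := hPkg.2 l hl
    exact ⟨α, β, mid_ear h (hdec l hl).1⟩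
  have hWl : ∀ l ∈ P, ∀ v ∈ l, v ∉ W := by
    intro l hl
    obtain ⟨α, β, h⟩ := hPkg.2 l hl
    exact h.2.2.2.2.1
  have hchain : ∀ l ∈ P, l.IsChain G.Adj := by
    intro l hl
    obtain ⟨α, β, h⟩ := hPkg.2 l hl
    exact h.2.2.2.1.2.2.2
  have hUT : ∀ v ∈ Ucore Lam P, v ∉ Tm q t := by
    intro v hv
    unfold Ucore at hv
    rw [List.mem_toFinset, List.mem_flatten] at hv
    obtain ⟨c, hc, hv⟩ := hv
    rw [List.mem_map] at hc
    obtain ⟨l, hl, rfl⟩ := hc
    obtain ⟨α, β, -, -, h⟩ := hear l hl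
    exact h v hv
  have hmemU : ∀ l ∈ P, ∀ v ∈ core Lam l, v ∈ Ucore Lam P := by
    intro l hl v hv
    unfold Ucore
    rw [List.mem_toFinset, List.mem_flatten]
    exact ⟨_, List.mem_map.2 ⟨l, hl, rfl⟩, hv⟩
  -- the paths of `D`
  obtain ⟨Q, hQ⟩ : ∃ Q, Q = D.flatMap (fun r => [r.p, r.p']) := ⟨_, rfl⟩
  rw [← hQ] at hS hTot
  have hQmem : ∀ r ∈ D, r.p ∈ Q ∧ r.p' ∈ Q := by
    intro r hr
    rw [hQ]
    constructor
    · rw [List.mem_flatMap]
      exact ⟨r, hr, by simp⟩
    · rw [List.mem_flatMap]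
      exact ⟨r, hr, by simp⟩
  have hQl : Q.length = 2 * (2 * p + 1) := by
    rw [hQ, List.length_flatMap]
    simp [hDl]
    ring
  have htail := mid_tail hS hUT
  -- the legs
  obtain ⟨AA, hAA⟩ : ∃ AA, AA = P.flatMap (fun l => [fa l :: (fA l).reverse, fb l :: fB l]) :=
    ⟨_, rfl⟩
  have hAAl : AA.length = 2 * p := by
    rw [hAA, List.length_flatMap]
    simp [← hp]
    ring
  have hAAmem : ∀ l ∈ P, (fa l :: (fA l).reverse) ∈ AA ∧ (fb l :: fB l) ∈ AA := by
    intro l hl
    rw [hAA]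
    constructor
    · rw [List.mem_flatMap]
      exact ⟨l, hl, by simp⟩
    · rw [List.mem_flatMap]
      exact ⟨l, hl, by simp⟩
  have hAAsp : AA.flatten.Subperm P.flatten := by
    have h4 : AA.flatten = P.flatMap (fun l => fa l :: (fA l).reverse ++ (fb l :: fB l)) := by
      rw [hAA]
      clear * -
      induction P with
      | nil => simp
      | cons l P ih =>
        simp only [List.flatMap_cons, List.flatten_append, ih]
        simp
    rw [h4]
    apply mid_flatMap_subperm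
    intro l hl
    have h5 : (fa l :: (fA l).reverse).Perm (fA l ++ [fa l]) := by
      have : fa l :: (fA l).reverse = (fA l ++ [fa l]).reverse := by simp
      rw [this]
      exact List.reverse_perm _
    exact ⟨_, (h5.append_right _).symm, mid_legs_sub (hdec l hl).1⟩
  have hAAnd : AA.flatten.Nodup := mid_subperm_nodup hAAsp hPkg.1
  have hAAlen : AA.flatten.length = Lam * (2 * p) := by
    rw [← hAAl]
    apply mid_const_length
    intro l hl
    rw [hAA, List.mem_flatMap] at hl
    obtain ⟨l', hl', hl⟩ := hl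
    obtain ⟨-, e1, e2, -⟩ := hdec l' hl'
    simp only [List.mem_cons, List.not_mem_nil, or_false] at hl
    rcases hl with rfl | rfl
    · simpa using e1
    · simpa using e2
  obtain ⟨BB, hBB⟩ : ∃ BB, BB = Q.map List.tail := ⟨_, rfl⟩
  have hBBl : BB.length = 2 * (2 * p + 1) := by
    rw [hBB, List.length_map, hQl]
  have hBBsub : BB.flatten.Sublist Q.flatten := by
    rw [hBB]
    exact mid_tails Q
  have hBBnd : BB.flatten.Nodup := hBBsub.nodup hS.1
  have hBBlen : BB.flatten.length ≤ Q.flatten.length := hBBsub.length_le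
  obtain ⟨KK, hKK⟩ : ∃ KK, KK = (AA.flatten ++ BB.flatten).toFinset := ⟨_, rfl⟩
  have hKKmem : ∀ v, v ∈ KK ↔ (∃ l ∈ AA, v ∈ l) ∨ ∃ l ∈ BB, v ∈ l := by
    intro v
    rw [hKK, List.mem_toFinset, List.mem_append, List.mem_flatten, List.mem_flatten]
  have hKKcard : KK.card ≤ 2 * (p * Lam) + Q.flatten.length := by
    have h4 := List.toFinset_card_le (AA.flatten ++ BB.flatten)
    rw [← hKK, List.length_append, hAAlen] at h4
    have h5 : Lam * (2 * p) = 2 * (p * Lam) := by ring
    omega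
  have hTA : TSys G KK (Tm q t) AA := by
    refine ⟨hAAnd, fun l hl => ⟨fun v hv => (hKKmem v).2 (Or.inl ⟨l, hl, hv⟩), ?_⟩⟩
    rw [hAA, List.mem_flatMap] at hl
    obtain ⟨l', hl', hl⟩ := hl
    obtain ⟨α, β, ⟨a1, a2, a3⟩, ⟨b1, b2, b3⟩, -⟩ := hear l' hl'
    simp only [List.mem_cons, List.not_mem_nil, or_false] at hl
    rcases hl with rfl | rfl
    · exact ⟨fa l', t α, a2, a1, a3⟩
    · exact ⟨fb l', t β, b2, b1, b3⟩
  have hTB : TSys G KK (Tm q t) BB := by
    refine ⟨hBBnd, fun l hl => ⟨fun v hv => (hKKmem v).2 (Or.inr ⟨l, hl, hv⟩), ?_⟩⟩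
    rw [hBB, List.mem_map] at hl
    obtain ⟨l', hl', rfl⟩ := hl
    obtain ⟨u, x, l1, rfl, -, -, -, b, hb, g1, g2⟩ := htail l' hl'
    exact ⟨x, b, hb, g1, g2⟩
  obtain ⟨R, hR, hRl, hRA, hRsub⟩ := h2 V G KK (Tm q t) AA BB hTA hTB (by omega)
  rw [hBB, hQ] at hRsub
  obtain ⟨r, hr, ⟨hx1, hx2⟩, hy1, hy2⟩ :=
    mid_choose hR.1 hR.ne_nil (p := p) (by omega) hAAl hDl hRsub
  obtain ⟨⟨hrl, hij, ⟨u, hu1, hu2⟩, ⟨u', hu3, hu4⟩⟩, hj1, hj2, hj3⟩ := hD r hr
  obtain ⟨hrp, hrp'⟩ := hQmem r hr
  obtain ⟨u0, x, l1, e1, hu0, hux, -, -⟩ := htail r.p hrp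
  obtain ⟨u0', x', l1', e1', hu0', hux', -, -⟩ := htail r.p' hrp'
  obtain rfl : u0 = u := by
    rw [e1] at hu2
    simpa using hu2
  obtain rfl : u0' = u' := by
    rw [e1'] at hu4
    simpa using hu4
  have ex : r.p.tail.head? = some x := by rw [e1]; simp
  have ex' : r.p'.tail.head? = some x' := by rw [e1']; simp
  rw [ex] at hx1 hx2
  rw [ex'] at hy1 hy2
  have hxx' : x ≠ x' := by
    intro h
    obtain ⟨D1, D2, hDD⟩ := List.append_of_mem hr
    have h4 := hS.1
    rw [hQ, hDD] at h4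
    simp only [List.flatMap_append, List.flatMap_cons, List.flatten_append] at h4
    have h5 := (List.nodup_append.1 h4).2.1
    have h6 := (List.nodup_append.1 h5).1
    simp only [List.flatten_cons, List.flatten_nil, List.append_nil] at h6
    exact (List.nodup_append.1 h6).2.2 x (by rw [e1]; simp) x' (by rw [e1']; simp) h
  obtain ⟨l, hl⟩ : ∃ l, l = r.l := ⟨_, rfl⟩
  rw [← hl] at hrl hu1 hu3 hj3
  obtain ⟨e2, e3, e4, e5⟩ := hdec l hrl
  have hlenl := hlen l hrl
  rw [mid_core_get e2 e3 (by omega) (by omega)] at hu1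
  rw [mid_core_get e2 e3 (by omega) (by omega)] at hu3
  obtain ⟨C1, M, C2, e6, e7, e8⟩ := mid_split2 (by omega) hu1 hu3
  obtain ⟨P1, P2, hP12⟩ := List.append_of_mem hrl
  obtain ⟨P0, hP0⟩ : ∃ P0, P0 = P1 ++ P2 := ⟨_, rfl⟩
  have hperm : P.Perm (l :: P0) := by
    rw [hP12, hP0]
    exact List.perm_middle
  have hP0mem : ∀ l' ∈ P0, l' ∈ P := fun l' h => hperm.mem_iff.2 (by simp [h])
  have hP0l : P0.length + 1 = p := by
    have := hperm.length_eq
    rw [List.length_cons] at this
    omega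
  have hfl : P.flatten.length = l.length + P0.flatten.length := by
    rw [hperm.flatten.length_eq, List.flatten_cons, List.length_append]
  obtain ⟨T, hT⟩ : ∃ T : List (Tr V), T = ⟨fa l, C1 ++ [u0], x⟩ :: ⟨x', u0' :: C2, fb l⟩ ::
      P0.map (fun l' => ⟨fa l', core Lam l', fb l'⟩) := ⟨_, rfl⟩
  have hTl : T.length = p + 1 := by
    rw [hT]
    simp
    omega
  have hTc : (T.map Tr.c).flatten = (C1 ++ [u0]) ++ ((u0' :: C2) ++ (P0.map (core Lam)).flatten) := by
    rw [hT]
    simp [List.map_map, Function.comp_def]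
  have hcsum := mid_core_sum (P := P0) (L := Lam) (fun l' hl' => (hdec l' (hP0mem l' hl')).2.2.2)
  have hTcl : (T.map Tr.c).flatten.length + 2 * (p * Lam) + M.length = P.flatten.length := by
    rw [hTc, hfl]
    have h4 : (core Lam l).length = C1.length + 1 + M.length + 1 + C2.length := by
      rw [e6]
      simp
      omega
    simp only [List.length_append, List.length_cons, List.length_nil]
    have h5 : 2 * (p * Lam) = 2 * Lam * P0.length + 2 * Lam := by
      rw [← hP0l]
      ring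
    omega
  have hcoreK : ∀ l' ∈ P, ∀ v ∈ core Lam l', v ∉ KK := by
    intro l' hl' v hv hvK
    rcases (hKKmem v).1 hvK with ⟨c, hc, hvc⟩ | ⟨c, hc, hvc⟩
    · rw [hAA, List.mem_flatMap] at hc
      obtain ⟨l2, hl2, hc⟩ := hc
      have h4 : v ∈ fA l2 ++ [fa l2] ++ (fb l2 :: fB l2) := by
        simp only [List.mem_cons, List.not_mem_nil, or_false] at hc
        rcases hc with rfl | rfl
        · simp at hvc ⊢
          tauto
        · simp at hvc ⊢
          tauto
      have h5 : v ∈ l2 := (mid_legs_sub (hdec l2 hl2).1).subset h4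
      have h6 : v ∈ l' := (mid_core_sub (hdec l' hl').1).subset hv
      have h7 := eq_of_mem_flatten hPkg.1 hl2 hl' h5 h6
      rw [h7] at h4
      have h8 := nodup_of_mem_flatten hPkg.1 hl'
      exact mid_disj (hdec l' hl').1 h8 hv h4
    · rw [hBB, List.mem_map] at hc
      obtain ⟨c', hc', rfl⟩ := hc
      obtain ⟨-, -, -, -, -, -, h4, -⟩ := htail c' hc'
      exact h4 v hvc (hmemU l' hl' v hv)
  have hinc1 : ∀ v ∈ C1 ++ [u0], v ∈ core Lam l := by
    intro v hv
    rw [e6]
    simp at hv ⊢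
    tauto
  have hinc2 : ∀ v ∈ u0' :: C2, v ∈ core Lam l := by
    intro v hv
    rw [e6]
    simp at hv ⊢
    tauto
  have hfa : ∀ l' ∈ P, ∃ ρ ∈ R, ρ.head? = some (fa l') := by
    intro l' hl'
    exact hRA _ (hAAmem l' hl').1
  have hfb : ∀ l' ∈ P, ∃ ρ ∈ R, ρ.head? = some (fb l') := by
    intro l' hl'
    exact hRA _ (hAAmem l' hl').2
  have hdisjKW : Disjoint KK W := by
    rw [Finset.disjoint_left]
    intro v hv hvW
    rcases (hKKmem v).1 hv with ⟨c, hc, hvc⟩ | ⟨c, hc, hvc⟩
    · have h4 : v ∈ P.flatten := hAAsp.subset (List.mem_flatten.2 ⟨c, hc, hvc⟩)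
      obtain ⟨l', hl', hv'⟩ := List.mem_flatten.1 h4
      exact hWl l' hl' v hv' hvW
    · rw [hBB, List.mem_map] at hc
      obtain ⟨c', hc', rfl⟩ := hc
      have h4 := (hS.2 c' hc').1 v (List.mem_of_mem_tail hvc)
      simp only [Finset.mem_sdiff, Finset.mem_univ, true_and] at h4
      exact h4 hvW
  have hlP0 : (l :: P0).flatten.Nodup := hperm.flatten.nodup_iff.1 hPkg.1
  have hmem0 : ∀ l' ∈ l :: P0, l' ∈ P := fun l' h => hperm.mem_iff.2 h
  have hnd1 : (T.flatMap (fun τ => [τ.a, τ.b])).Nodup := by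
    have h4 : ((l :: P0).flatMap (fun l' => [fa l', fb l'])).Nodup := by
      refine mid_subperm_nodup (mid_flatMap_subperm ?_) hlP0
      intro l' hl'
      exact (mid_heads_sub (hdec l' (hmem0 l' hl')).1).subperm
    have h5 : ∀ v, (∀ c ∈ AA, c.head? ≠ some v) →
        v ∉ (l :: P0).flatMap (fun l' => [fa l', fb l']) := by
      intro v hv hmem
      rw [List.mem_flatMap] at hmem
      obtain ⟨l', hl', hmem⟩ := hmem
      have h6 := hAAmem l' (hmem0 l' hl')
      simp only [List.mem_cons, List.not_mem_nil, or_false] at hmem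
      rcases hmem with rfl | rfl
      · exact hv _ h6.1 rfl
      · exact hv _ h6.2 rfl
    have h6 := h5 x hx2
    have h7 := h5 x' hy2
    have h8 : T.flatMap (fun τ => [τ.a, τ.b]) =
        fa l :: x :: x' :: fb l :: P0.flatMap (fun l' => [fa l', fb l']) := by
      rw [hT]
      simp [List.flatMap_map]
    rw [h8]
    obtain ⟨Z, hZ⟩ : ∃ Z, Z = P0.flatMap (fun l' => [fa l', fb l']) := ⟨_, rfl⟩
    rw [List.flatMap_cons, ← hZ] at h4 h6 h7
    rw [← hZ]
    simp only [List.cons_append, List.nil_append, List.nodup_cons, List.mem_cons, not_or] at h4 h6 h7 ⊢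
    refine ⟨⟨fun h => h6.1 h.symm, fun h => h7.1 h.symm, h4.1.1, h4.1.2⟩, ⟨hxx', h6.2.1, h6.2.2⟩,
      ⟨h7.2.1, h7.2.2⟩, h4.2.1, h4.2.2⟩
  have hnd2 : (T.map Tr.c).flatten.Nodup := by
    rw [hTc, ← List.append_assoc]
    refine mid_subperm_nodup ?_ hlP0
    rw [List.flatten_cons]
    refine List.Subperm.append ?_ ?_
    · refine List.Sublist.subperm ?_
      refine List.Sublist.trans ?_ (mid_core_sub e2)
      rw [e6]
      have h4 : C1 ++ u0 :: (M ++ u0' :: C2) = (C1 ++ [u0]) ++ (M ++ u0' :: C2) := by simp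
      rw [h4]
      exact (List.Sublist.refl _).append (List.sublist_append_right _ _)
    · rw [← List.flatMap_def]
      apply mid_flatMap_subperm
      intro l' hl'
      exact (mid_core_sub (hdec l' (hP0mem l' hl')).1).subperm
  have hall : ∀ τ ∈ T, (τ.a :: τ.c ++ [τ.b]).IsChain G.Adj ∧ τ.c ≠ [] ∧
      (∀ v ∈ τ.c, v ∉ KK ∧ v ∉ W ∧ v ∉ Tm q t) ∧ (∃ r ∈ R, r.head? = some τ.a) ∧
      ∃ r ∈ R, r.head? = some τ.b := by
    have hcc : ∀ l' ∈ P, ∀ v ∈ core Lam l', v ∉ KK ∧ v ∉ W ∧ v ∉ Tm q t := by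
      intro l' hl' v hv
      exact ⟨hcoreK l' hl' v hv, hWl l' hl' v ((mid_core_sub (hdec l' hl').1).subset hv),
        hUT v (hmemU l' hl' v hv)⟩
    intro τ hτ
    rw [hT] at hτ
    simp only [List.mem_cons, List.mem_map] at hτ
    rcases hτ with rfl | rfl | ⟨l2, hl2, rfl⟩
    · exact ⟨mid_ch1 e2 e6 (hchain l hrl) hux, by simp, fun v hv => hcc l hrl v (hinc1 v hv),
        hfa l hrl, hx1⟩
    · exact ⟨mid_ch2 e2 e6 (hchain l hrl) hux', by simp, fun v hv => hcc l hrl v (hinc2 v hv),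
        hy1, hfb l hrl⟩
    · have hl3 := hP0mem l2 hl2
      refine ⟨mid_ch0 (hdec l2 hl3).1 (hchain l2 hl3), ?_, hcc l2 hl3, hfa l2 hl3, hfb l2 hl3⟩
      intro h4
      have h5 := hlen l2 hl3
      have h6 := (hdec l2 hl3).2.2.2
      simp only at h4
      rw [h4] at h6
      simp at h6
      omega
  obtain ⟨P', hP'1, hP'2, hP'3, hP'4, hP'5⟩ :=
    h3 V G q W t KK R T hC.hub.inj hR hdisjKW hnd1 hnd2 hall
  have hE' : ∀ l' ∈ P', E1 ≤ l'.length := by
    intro l' hl'
    obtain ⟨τ, hτ, h4⟩ := hP'3 l' hl'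
    refine le_trans ?_ h4
    rw [hT] at hτ
    simp only [List.mem_cons, List.mem_map] at hτ
    rcases hτ with rfl | rfl | ⟨l2, hl2, rfl⟩
    · simp
      omega
    · have h5 : (core Lam l).length = C1.length + 1 + M.length + 1 + C2.length := by
        rw [e6]
        simp
        omega
      simp
      omega
    · have h5 := hlen l2 (hP0mem l2 hl2)
      have h6 := (hdec l2 (hP0mem l2 hl2)).2.2.2
      simp only
      omega
  have hfin := hopt P' hP'1 hE' (by omega)
  rw [hP'2, hTl, ← hp] at hfin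
  have h9 : Y * (p + 1) = Y * p + Y := by ring
  rw [h9] at hfin
  omega

end Pool.Agent.Helper71.BM
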